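import Mathlib

/-!
Gaussian moments `∫ y^k exp(-y² - 2ipy) dy` and the functions `x^k exp(-x²/2)` in `L²(ℝ)`.
-/

set_option autoImplicit false

namespace Pool.Agent.V11191.BS

open MeasureTheory Complex

/-- The integrand of the Gaussian moments. -/
noncomputable def mf (k : ℕ) (p y : ℝ) : ℂ := (y : ℂ) ^ k * cexp (-(y : ℂ) ^ 2 - 2 * I * p * y)

lemma norm_mf (k : ℕ) (p y : ℝ) : ‖mf k p y‖ = |y| ^ k * Real.exp (-1 * y ^ 2) := by
  unfold mf
  rw [norm_mul, norm_pow, Complex.norm_real, Real.norm_eq_abs, Complex.norm_exp]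
  congr 2
  simp [← Complex.ofReal_pow]

lemma continuous_mf (k : ℕ) (p : ℝ) : Continuous (mf k p) := by
  unfold mf; fun_prop

lemma integrable_abs_pow (k : ℕ) : Integrable fun y : ℝ => |y| ^ k * Real.exp (-1 * y ^ 2) := by
  have h := integrable_rpow_mul_exp_neg_mul_sq (b := 1) one_pos (s := (k : ℝ))
    (by have : (0 : ℝ) ≤ k := Nat.cast_nonneg k; linarith)
  refine h.norm.congr (Filter.Eventually.of_forall fun y => ?_)
  simp only [norm_mul, Real.rpow_natCast, norm_pow, Real.norm_eq_abs, Real.abs_exp]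

lemma integrable_mf (k : ℕ) (p : ℝ) : Integrable (mf k p) := by
  refine (integrable_norm_iff (continuous_mf k p).aestronglyMeasurable).1 ?_
  simp_rw [norm_mf]
  exact integrable_abs_pow k

/-- The Gaussian moments. -/
noncomputable def mo (k : ℕ) (p : ℝ) : ℂ := ∫ y : ℝ, mf k p y

lemma mo_zero (p : ℝ) : mo 0 p = (Real.sqrt Real.pi : ℝ) * cexp (-(p : ℂ) ^ 2) := by
  unfold mo mf
  have h := integral_cexp_quadratic (b := -1) (by simp) (-2 * I * p) 0
  have e : ∀ y : ℝ, ((y : ℂ) ^ 0 * cexp (-(y : ℂ) ^ 2 - 2 * I * p * y)) =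
      cexp (-1 * (y : ℂ) ^ 2 + -2 * I * p * y + 0) := by
    intro y; rw [pow_zero, one_mul]; congr 1; ring
  simp_rw [e]
  rw [h]
  congr 1
  · rw [neg_neg, div_one, Real.sqrt_eq_rpow, Complex.ofReal_cpow Real.pi_pos.le]
    norm_num
  · congr 1
    have : I ^ 2 = -1 := I_sq
    linear_combination (p : ℂ) ^ 2 * this

lemma mo_succ (k : ℕ) (p : ℝ) :
    mo (k + 2) p = ((k : ℂ) + 1) / 2 * mo k p - I * p * mo (k + 1) p := by
  have hd : ∀ y : ℝ, HasDerivAt (mf (k + 1) p)
      (((k : ℂ) + 1) * mf k p y - 2 * mf (k + 2) p y - 2 * I * p * mf (k + 1) p y) y := by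
    intro y
    have h1 : HasDerivAt (fun y : ℝ => (y : ℂ)) 1 y := Complex.ofRealCLM.hasDerivAt
    have h2 := h1.pow (k + 1)
    have h3 : HasDerivAt (fun y : ℝ => -(y : ℂ) ^ 2 - 2 * I * p * y)
        (-(2 * (y : ℂ)) - 2 * I * p) y := by
      have h4 := (h1.pow 2).neg.sub (h1.const_mul (2 * I * p))
      refine h4.congr_deriv ?_
      push_cast
      ring
    have h5 := h2.mul h3.cexp
    refine h5.congr_deriv ?_
    unfold mf
    simp only [Nat.add_sub_cancel, Pi.pow_apply]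
    push_cast
    ring
  have hint : Integrable (fun y : ℝ => ((k : ℂ) + 1) * mf k p y - 2 * mf (k + 2) p y -
      2 * I * p * mf (k + 1) p y) :=
    (((integrable_mf k p).const_mul _).sub ((integrable_mf (k + 2) p).const_mul _)).sub
      ((integrable_mf (k + 1) p).const_mul _)
  have h0 := integral_eq_zero_of_hasDerivAt_of_integrable hd hint (integrable_mf (k + 1) p)
  have i1 : Integrable (fun y : ℝ => ((k : ℂ) + 1) * mf k p y - 2 * mf (k + 2) p y) :=
    ((integrable_mf k p).const_mul _).sub ((integrable_mf (k + 2) p).const_mul _)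
  rw [integral_sub i1 ((integrable_mf (k + 1) p).const_mul _),
    integral_sub ((integrable_mf k p).const_mul _) ((integrable_mf (k + 2) p).const_mul _),
    integral_const_mul, integral_const_mul, integral_const_mul] at h0
  unfold mo
  linear_combination (-1 / 2 : ℂ) * h0

lemma mo_one (p : ℝ) : mo 1 p = - I * p * mo 0 p := by
  have hd : ∀ y : ℝ, HasDerivAt (mf 0 p) (- 2 * mf 1 p y - 2 * I * p * mf 0 p y) y := by
    intro y
    have h1 : HasDerivAt (fun y : ℝ => (y : ℂ)) 1 y := Complex.ofRealCLM.hasDerivAt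
    have h3 : HasDerivAt (fun y : ℝ => -(y : ℂ) ^ 2 - 2 * I * p * y)
        (-(2 * (y : ℂ)) - 2 * I * p) y := by
      have h4 := (h1.pow 2).neg.sub (h1.const_mul (2 * I * p))
      refine h4.congr_deriv ?_
      push_cast
      ring
    have h5 := h3.cexp
    have e : mf 0 p = fun y : ℝ => cexp (-(y : ℂ) ^ 2 - 2 * I * p * y) := by
      ext y; unfold mf; rw [pow_zero, one_mul]
    rw [e]
    refine h5.congr_deriv ?_
    unfold mf
    ring
  have hint : Integrable (fun y : ℝ => - 2 * mf 1 p y - 2 * I * p * mf 0 p y) :=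
    ((integrable_mf 1 p).const_mul _).sub ((integrable_mf 0 p).const_mul _)
  have h0 := integral_eq_zero_of_hasDerivAt_of_integrable hd hint (integrable_mf 0 p)
  rw [integral_sub ((integrable_mf 1 p).const_mul _) ((integrable_mf 0 p).const_mul _),
    integral_const_mul, integral_const_mul] at h0
  unfold mo
  linear_combination (-1 / 2 : ℂ) * h0

lemma mo_two (p : ℝ) : mo 2 p = (1 / 2 - (p : ℂ) ^ 2) * mo 0 p := by
  have h := mo_succ 0 p
  rw [mo_one] at h
  rw [h]
  have hI : I ^ 2 = -1 := I_sq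
  push_cast
  linear_combination (p : ℂ) ^ 2 * mo 0 p * hI

lemma mo_three (p : ℝ) : mo 3 p = (-(3 / 2) * I * p + I * (p : ℂ) ^ 3) * mo 0 p := by
  have h := mo_succ 1 p
  rw [mo_one, mo_two] at h
  rw [h]
  push_cast
  ring

lemma mo_four (p : ℝ) : mo 4 p = (3 / 4 - 3 * (p : ℂ) ^ 2 + (p : ℂ) ^ 4) * mo 0 p := by
  have h := mo_succ 2 p
  rw [mo_two, mo_three] at h
  rw [h]
  have hI : I ^ 2 = -1 := I_sq
  push_cast
  linear_combination ((3 / 2) * (p : ℂ) ^ 2 - (p : ℂ) ^ 4) * mo 0 p * hI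

/-- `x^k exp(-x²/2)` -/
noncomputable def gf (k : ℕ) (x : ℝ) : ℂ := (x : ℂ) ^ k * cexp (-(x : ℂ) ^ 2 / 2)

lemma continuous_gf (k : ℕ) : Continuous (gf k) := by unfold gf; fun_prop

lemma norm_gf_sq (k : ℕ) (x : ℝ) : ‖gf k x‖ ^ 2 = |x| ^ (2 * k) * Real.exp (-1 * x ^ 2) := by
  unfold gf
  rw [norm_mul, norm_pow, Complex.norm_real, Real.norm_eq_abs, Complex.norm_exp, mul_pow,
    ← pow_mul, mul_comm k 2, ← Real.exp_nat_mul]
  congr 2
  have : (-(x : ℂ) ^ 2 / 2).re = -x ^ 2 / 2 := by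
    have : (-(x : ℂ) ^ 2 / 2) = ((-x ^ 2 / 2 : ℝ) : ℂ) := by push_cast; ring
    rw [this, Complex.ofReal_re]
  rw [this]
  push_cast
  ring

lemma memLp_gf (k : ℕ) : MemLp (gf k) 2 volume := by
  rw [memLp_two_iff_integrable_sq_norm (continuous_gf k).aestronglyMeasurable]
  simp_rw [norm_gf_sq]
  exact integrable_abs_pow (2 * k)

end Pool.Agent.V11191.BS
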